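import Mathlib
import Pool.Agent.H575R3.GRWFinal

/-!
Greedy random walk: if some set of vertices has a finite edge boundary of odd size, then the
greedy random walk on an even vertex-transitive graph fails to return with positive probability.
-/

open MeasureTheory Finset Filter ProbabilityTheory Pool.Agent.H575R3.GRW
open scoped ENNReal Topology

namespace Pool.Agent.TH978.GRWCut

variable {V : Type*} [DecidableEq V] {G : SimpleGraph V} [G.LocallyFinite]

lemma orb_zero (ω : (v : V) → PM (G.neighborSet v)) (b f : V) : orb ω b f 0 = b := rfl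

lemma orb_one (ω : (v : V) → PM (G.neighborSet v)) (b f : V) : orb ω b f 1 = f := rfl

lemma iter_snd (ω : (v : V) → PM (G.neighborSet v)) (b f : V) (k : ℕ) :
    (arcT ω)^[k] (b, f) = (orb ω b f k, orb ω b f (k + 1)) := by
  unfold orb
  apply Prod.ext
  · rfl
  · rw [Function.iterate_succ_apply']
    rfl

lemma orb_step (ω : (v : V) → PM (G.neighborSet v)) (b f : V) (k : ℕ) :
    orb ω b f (k + 2) = nx ω (orb ω b f k) (orb ω b f (k + 1)) := by
  have h1 := iter_snd ω b f (k + 1)
  rw [Function.iterate_succ_apply', iter_snd] at h1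
  exact (congrArg Prod.snd h1).symm

lemma orb_adj (ω : (v : V) → PM (G.neighborSet v)) {b f : V} (h : G.Adj b f) (k : ℕ) :
    G.Adj (orb ω b f k) (orb ω b f (k + 1)) := by
  have := iter_adj ω (a := (b, f)) h k
  rw [iter_snd] at this
  exact this

lemma nx_nx (ω : (v : V) → PM (G.neighborSet v)) {u v : V} (h : G.Adj v u) :
    nx ω (nx ω u v) v = u := by
  exact nx_eq (Mch_nx ω h).symm

lemma nx_ne (ω : (v : V) → PM (G.neighborSet v)) {u v : V} (h : G.Adj v u) :
    nx ω u v ≠ u := (Mch_nx ω h).ne.symm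

/-- the reversed orbit -/
lemma orb_rev (ω : (v : V) → PM (G.neighborSet v)) {b f : V} (h : G.Adj b f) (n : ℕ) :
    ∀ j, j ≤ n + 1 →
      orb ω (orb ω b f (n + 1)) (orb ω b f n) j = orb ω b f (n + 1 - j) := by
  intro j
  induction j using Nat.strong_induction_on with
  | _ j ih =>
    intro hj
    match j with
    | 0 => rfl
    | 1 => rw [orb_one]; rfl
    | j + 2 =>
      rw [orb_step, ih j (by omega) (by omega), ih (j + 1) (by omega) (by omega)]
      have e1 : n + 1 - j = (n + 1 - (j + 2)) + 2 := by omega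
      have e2 : n + 1 - (j + 1) = (n + 1 - (j + 2)) + 1 := by omega
      rw [e1, e2, orb_step]
      exact nx_nx ω (orb_adj ω h _).symm

/-- a palindromic orbit is impossible -/
lemma orb_ne_rev (ω : (v : V) → PM (G.neighborSet v)) {b f : V} (h : G.Adj b f) (n : ℕ) :
    ¬ (orb ω b f (n + 1) = b ∧ orb ω b f n = f) := by
  rintro ⟨h1, h2⟩
  have key : ∀ j, j ≤ n + 1 → orb ω b f j = orb ω b f (n + 1 - j) := by
    intro j hj
    have := orb_rev ω h n j hj
    rw [h1, h2] at this
    exact this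
  rcases Nat.even_or_odd (n + 1) with ⟨m, hm⟩ | ⟨m, hm⟩
  · have hm1 : 1 ≤ m := by omega
    obtain ⟨k, rfl⟩ := Nat.exists_eq_add_of_le' hm1
    have := key k (by omega)
    rw [show n + 1 - k = k + 2 by omega, orb_step] at this
    exact nx_ne ω (orb_adj ω h k).symm this.symm
  · have := key m (by omega)
    rw [show n + 1 - m = m + 1 by omega] at this
    exact (orb_adj ω h m).ne this

/-- If the orbits of all arcs that leave `S` come back to their starting vertex, then the number of
the edges between `S` and its complement is even. -/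
theorem even_cut (ω : (v : V) → PM (G.neighborSet v)) (S : Set V) (E : Finset (V × V))
    (hE : ∀ a, a ∈ E ↔ G.Adj a.1 a.2 ∧ a.1 ∈ S ∧ a.2 ∉ S)
    (hret : ∀ a ∈ E, ∃ k, 1 ≤ k ∧ orb ω a.1 a.2 k = a.1) : Even E.card := by
  classical
  have hex : ∀ a ∈ E, ∃ k, orb ω a.1 a.2 (k + 1) ∈ S := by
    intro a ha
    obtain ⟨k, hk1, hk2⟩ := hret a ha
    obtain ⟨j, rfl⟩ := Nat.exists_eq_add_of_le' hk1
    exact ⟨j, by rw [hk2]; exact ((hE a).mp ha).2.1⟩
  -- the involution
  let g : (a : V × V) → a ∈ E → V × V := fun a ha =>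
    (orb ω a.1 a.2 (Nat.find (hex a ha) + 1), orb ω a.1 a.2 (Nat.find (hex a ha)))
  have hpos : ∀ a (ha : a ∈ E), 1 ≤ Nat.find (hex a ha) := by
    intro a ha
    by_contra hc
    have h0 : Nat.find (hex a ha) = 0 := by omega
    have := Nat.find_spec (hex a ha)
    rw [h0] at this
    exact ((hE a).mp ha).2.2 this
  have hout : ∀ a (ha : a ∈ E), ∀ j, 1 ≤ j → j ≤ Nat.find (hex a ha) → orb ω a.1 a.2 j ∉ S := by
    intro a ha j h1 h2
    obtain ⟨i, rfl⟩ := Nat.exists_eq_add_of_le' h1
    exact Nat.find_min (hex a ha) (by omega)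
  have hgE : ∀ a (ha : a ∈ E), g a ha ∈ E := by
    intro a ha
    rw [hE]
    refine ⟨(orb_adj ω ((hE a).mp ha).1 _).symm, Nat.find_spec (hex a ha), ?_⟩
    exact hout a ha _ (hpos a ha) le_rfl
  have hgg : ∀ a (ha : a ∈ E), g (g a ha) (hgE a ha) = a := by
    intro a ha
    have hrev := orb_rev ω ((hE a).mp ha).1 (Nat.find (hex a ha))
    have hfind : Nat.find (hex (g a ha) (hgE a ha)) = Nat.find (hex a ha) := by
      rw [Nat.find_eq_iff]
      constructor
      · show orb ω (orb ω a.1 a.2 (Nat.find (hex a ha) + 1)) (orb ω a.1 a.2 (Nat.find (hex a ha)))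
          (Nat.find (hex a ha) + 1) ∈ S
        rw [hrev _ le_rfl, Nat.sub_self]
        exact ((hE a).mp ha).2.1
      · intro n hn
        show orb ω (orb ω a.1 a.2 (Nat.find (hex a ha) + 1)) (orb ω a.1 a.2 (Nat.find (hex a ha)))
          (n + 1) ∉ S
        rw [hrev _ (by omega)]
        exact hout a ha _ (by omega) (by omega)
    have e1 : (g (g a ha) (hgE a ha)).1 = a.1 := by
      show orb ω (g a ha).1 (g a ha).2 (Nat.find (hex (g a ha) (hgE a ha)) + 1) = a.1
      rw [hfind]
      show orb ω (orb ω a.1 a.2 (Nat.find (hex a ha) + 1)) (orb ω a.1 a.2 (Nat.find (hex a ha)))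
          (Nat.find (hex a ha) + 1) = a.1
      rw [hrev _ le_rfl, Nat.sub_self]
      rfl
    have e2 : (g (g a ha) (hgE a ha)).2 = a.2 := by
      show orb ω (g a ha).1 (g a ha).2 (Nat.find (hex (g a ha) (hgE a ha))) = a.2
      rw [hfind]
      show orb ω (orb ω a.1 a.2 (Nat.find (hex a ha) + 1)) (orb ω a.1 a.2 (Nat.find (hex a ha)))
          (Nat.find (hex a ha)) = a.2
      rw [hrev _ (by omega), show Nat.find (hex a ha) + 1 - Nat.find (hex a ha) = 1 by omega]
      rfl
    exact Prod.ext e1 e2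
  have hgne : ∀ a (ha : a ∈ E), g a ha ≠ a := by
    intro a ha h
    have h1 : (g a ha).1 = a.1 := congrArg Prod.fst h
    have h2 : (g a ha).2 = a.2 := congrArg Prod.snd h
    exact orb_ne_rev ω ((hE a).mp ha).1 (Nat.find (hex a ha)) ⟨h1, h2⟩
  have hsum : ∑ a ∈ E, (1 : ZMod 2) = 0 := by
    apply Finset.sum_involution g
    · intro a ha; decide
    · intro a ha _; exact hgne a ha
    · intro a ha; exact hgg a ha
    · intro a ha; exact hgE a ha
  rw [Finset.sum_const, nsmul_eq_mul, mul_one] at hsum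
  exact (ZMod.natCast_eq_zero_iff_even).mp hsum

variable {Ω : Type*} [MeasurableSpace Ω] {o : V} {P : Measure Ω} {X : ℕ → Ω → V}

/-- If the first return is certain, then almost surely all orbits return. -/
theorem ae_return [Countable V] (h : IsGRW G o P X)
    (heven : ∀ v, Even (G.neighborFinset v).card) (hpos : ∀ v, (G.neighborFinset v).Nonempty)
    (htrans : ∀ u v : V, ∃ φ : G ≃g G, φ u = v)
    (hw : (⨅ k, wn P X o k) = 0) :
    ∀ᵐ ω ∂(mu G), ∀ b f : V, G.Adj b f → ∃ k, 1 ≤ k ∧ orb ω b f k = b := by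
  have hM := mu_prob heven
  rw [ae_all_iff]
  intro b
  rw [ae_all_iff]
  intro f
  by_cases hbf : G.Adj b f
  · have hnull : mu G {ω | ¬ ∃ k, 1 ≤ k ∧ orb ω b f k = b} = 0 := by
      have hle : ∀ m, mu G {ω | ¬ ∃ k, 1 ≤ k ∧ orb ω b f k = b} ≤
          (G.neighborFinset b).card * wn P X o m := by
        intro m
        have h2 : mu G (noRet G b f (m + 1)) ≤ (G.neighborFinset b).card * wn P X o m := by
          rw [← h.sum_noRet heven hpos htrans b m]
          exact Finset.single_le_sum (f := fun f => mu G (noRet G b f (m + 1)))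
            (fun _ _ => zero_le) (by simpa using hbf)
        refine (measure_mono ?_).trans h2
        intro ω hω k hk _ hk2
        exact hω ⟨k, hk, hk2⟩
      have ht : Tendsto (fun m => ((G.neighborFinset b).card : ℝ≥0∞) * wn P X o m) atTop
          (𝓝 ((G.neighborFinset b).card * (⨅ k, wn P X o k))) :=
        ENNReal.Tendsto.const_mul (tendsto_atTop_iInf (wn_antitone P X o))
          (Or.inr (ENNReal.natCast_ne_top _))
      rw [hw, mul_zero] at ht
      exact le_antisymm (ge_of_tendsto' ht hle) zero_le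
    rw [ae_iff]
    simpa [hbf] using hnull
  · filter_upwards with ω h1
    exact absurd h1 hbf

/-- An odd finite cut makes the return probability smaller than one. -/
theorem ret_ne_one [Infinite V] (h : IsGRW G o P X) (hconn : G.Connected)
    (htrans : ∀ u v : V, ∃ φ : G ≃g G, φ u = v)
    (heven : ∀ v, Even (G.degree v)) (S : Set V) (E : Finset (V × V))
    (hE : ∀ a, a ∈ E ↔ G.Adj a.1 a.2 ∧ a.1 ∈ S ∧ a.2 ∉ S) (hodd : Odd E.card) :
    P {ω | ∃ t, 1 ≤ t ∧ X t ω = o} ≠ 1 := by
  intro hB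
  have hP : IsProbabilityMeasure P := ⟨h.prob⟩
  have hcount := countable_of_connected G hconn
  have hpos := neighborFinset_nonempty hconn
  have heven' : ∀ v, Even (G.neighborFinset v).card := heven
  have hBm : MeasurableSet {ω | ∃ t, 1 ≤ t ∧ X t ω = o} := by
    have : {ω | ∃ t, 1 ≤ t ∧ X t ω = o} = ⋃ t, ⋃ (_ : 1 ≤ t), {ω | X t ω = o} := by
      ext ω; simp
    rw [this]
    exact MeasurableSet.iUnion fun t => MeasurableSet.iUnion fun _ => h.meas t o
  have hw : (⨅ k, wn P X o k) = 0 := by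
    rw [h.iInf_wn, prob_compl_eq_one_sub hBm, hB, tsub_self]
  have hM := mu_prob heven'
  obtain ⟨ω, hω⟩ := (ae_return h heven' hpos htrans hw).exists
  have := even_cut ω S E hE (fun a ha => hω a.1 a.2 ((hE a).mp ha).1)
  exact (Nat.not_even_iff_odd.mpr hodd) this

/-- A cycle makes the return probability positive. -/
theorem ret_ne_zero (h : IsGRW G o P X)
    (htrans : ∀ u v : V, ∃ φ : G ≃g G, φ u = v) (hcyc : ¬ G.IsAcyclic) :
    P {ω | ∃ t, 1 ≤ t ∧ X t ω = o} ≠ 0 := by
  have hcyc' : ∃ p : G.Walk o o, p.IsCycle := by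
    unfold SimpleGraph.IsAcyclic at hcyc
    push Not at hcyc
    obtain ⟨v, c, hc⟩ := hcyc
    obtain ⟨φ, hφ⟩ := htrans v o
    subst hφ
    exact ⟨c.map φ.toHom, (SimpleGraph.Walk.map_isCycle_iff_of_injective φ.injective).mpr hc⟩
  obtain ⟨p, hp⟩ := hcyc'
  have hlen := hp.three_le_length
  have hnd := hp.isTrail.edges_nodup
  have hfresh : ∀ s < p.length, p.getVert (s + 1) ∈ fresh G p.getVert s := by
    intro s hs
    unfold fresh
    rw [Finset.mem_filter]
    refine ⟨by simpa using p.adj_getVert_succ hs, ?_⟩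
    unfold crossed
    rw [Finset.mem_image]
    rintro ⟨r, hr, he⟩
    have hr' : r < s := by simpa using hr
    have h1 : r < p.edges.length := by rw [p.length_edges]; omega
    have h2 : s < p.edges.length := by rw [p.length_edges]; omega
    have e1 : p.edges[r] = p.edges[s] := by
      rw [p.getElem_edges, p.getElem_edges]
      exact he
    have := (List.Nodup.getElem_inj_iff hnd).mp e1
    omega
  have hpos := h.cyl_pos p.getVert (p.getVert_zero) p.length (by
    intro s hs
    have hm := hfresh s hs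
    unfold stepProb
    rw [if_pos ⟨_, hm⟩, if_pos hm]
    exact ENNReal.inv_ne_zero.mpr (ENNReal.natCast_ne_top _))
  intro h0
  apply hpos
  refine measure_mono_null ?_ h0
  intro ω hω
  refine ⟨p.length, by omega, ?_⟩
  rw [hω p.length le_rfl, p.getVert_length]

/-- The general criterion. -/
theorem criterion [Infinite V] (h : IsGRW G o P X) (hconn : G.Connected)
    (htrans : ∀ u v : V, ∃ φ : G ≃g G, φ u = v)
    (heven : ∀ v, Even (G.degree v)) (hcyc : ¬ G.IsAcyclic) (S : Set V) (E : Finset (V × V))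
    (hE : ∀ a, a ∈ E ↔ G.Adj a.1 a.2 ∧ a.1 ∈ S ∧ a.2 ∉ S) (hodd : Odd E.card) :
    P {ω | ∃ t, 1 ≤ t ∧ X t ω = o} ≠ 0 ∧ P {ω | ∃ t, 1 ≤ t ∧ X t ω = o} ≠ 1 ∧
      P {ω | ∀ n, ∃ t, n ≤ t ∧ X t ω = o} = 0 := by
  have h1 := ret_ne_one h hconn htrans heven S E hE hodd
  refine ⟨ret_ne_zero h htrans hcyc, h1, ?_⟩
  exact (h.even_law hconn htrans heven).2 (fun hh => h1 hh.2)

end Pool.Agent.TH978.GRWCut
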