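import Mathlib
import Pool.Agent.TH978.GRWCut

/-!
The product of the two-way infinite path with a finite vertex-transitive graph with an odd number
of vertices.
-/

open MeasureTheory Finset Filter ProbabilityTheory Pool.Agent.H575R3.GRW
open scoped ENNReal Topology

namespace Pool.Agent.TH978.GRWProd

open SimpleGraph

lemma hasse_int_adj (a b : ℤ) : (hasse ℤ).Adj a b ↔ b = a + 1 ∨ a = b + 1 := by
  rw [hasse_adj, Order.covBy_iff_add_one_eq, Order.covBy_iff_add_one_eq]
  constructor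
  · rintro (h | h)
    · exact Or.inl h.symm
    · exact Or.inr h.symm
  · rintro (h | h)
    · exact Or.inl h.symm
    · exact Or.inr h.symm

lemma hasse_int_neighborSet (a : ℤ) : (hasse ℤ).neighborSet a = (({a + 1, a - 1} : Finset ℤ) : Set ℤ) := by
  ext b
  rw [mem_neighborSet, hasse_int_adj]
  simp only [Finset.coe_insert, Finset.coe_singleton, Set.mem_insert_iff, Set.mem_singleton_iff]
  constructor
  · rintro (h | h)
    · exact Or.inl h
    · right; omega
  · rintro (h | h)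
    · exact Or.inl h
    · right; omega

noncomputable instance instFin (a : ℤ) : Fintype ((hasse ℤ).neighborSet a) :=
  have : Finite ((hasse ℤ).neighborSet a) := by
    rw [hasse_int_neighborSet]; exact Finset.finite_toSet _
  Fintype.ofFinite _

lemma hasse_int_degree (a : ℤ) : (hasse ℤ).degree a = 2 := by
  rw [← SimpleGraph.card_neighborSet_eq_degree]
  have h : Fintype.card ((hasse ℤ).neighborSet a) = Nat.card ((hasse ℤ).neighborSet a) :=
    Nat.card_eq_fintype_card.symm
  rw [h, hasse_int_neighborSet, Nat.card_coe_set_eq, Set.ncard_coe_finset,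
    Finset.card_pair (by omega)]

lemma hasse_int_connected : (hasse ℤ).Connected := by
  have : Nonempty ℤ := ⟨0⟩
  exact ⟨hasse_preconnected_of_succ ℤ⟩

/-- translation of the path -/
def shift (c : ℤ) : hasse ℤ ≃g hasse ℤ where
  toEquiv := Equiv.addRight c
  map_rel_iff' := by
    intro a b
    simp only [Equiv.coe_addRight]
    rw [hasse_int_adj, hasse_int_adj]
    constructor
    · rintro (h | h)
      · left; omega
      · right; omega
    · rintro (h | h)
      · left; omega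
      · right; omega

variable {W : Type} (H : SimpleGraph W)

/-- product of automorphisms -/
def prodIso (φ : hasse ℤ ≃g hasse ℤ) (ψ : H ≃g H) : (hasse ℤ □ H) ≃g (hasse ℤ □ H) where
  toEquiv := Equiv.prodCongr φ.toEquiv ψ.toEquiv
  map_rel_iff' := by
    rintro ⟨a, x⟩ ⟨b, y⟩
    simp only [Equiv.prodCongr_apply, Prod.map_apply, boxProd_adj]
    simp only [RelIso.coe_fn_toEquiv, Iso.map_adj_iff, EmbeddingLike.apply_eq_iff_eq]

lemma prod_trans (hH : ∀ u v : W, ∃ ψ : H ≃g H, ψ u = v) :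
    ∀ u v : ℤ × W, ∃ φ : (hasse ℤ □ H) ≃g (hasse ℤ □ H), φ u = v := by
  rintro ⟨a, x⟩ ⟨b, y⟩
  obtain ⟨ψ, hψ⟩ := hH x y
  refine ⟨prodIso H (shift (b - a)) ψ, ?_⟩
  show (a + (b - a), ψ x) = (b, y)
  rw [hψ]
  congr 1
  omega

/-- In a finite vertex-transitive graph with an odd number of vertices all degrees are even. -/
lemma even_degree [Fintype W] [DecidableEq W] [H.LocallyFinite]
    (hH : ∀ u v : W, ∃ ψ : H ≃g H, ψ u = v) (hodd : Odd (Fintype.card W)) (w : W) :
    Even (H.degree w) := by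
  classical
  have hreg : ∀ v, H.degree v = H.degree w := by
    intro v
    obtain ⟨ψ, hψ⟩ := hH w v
    have := card_neighborFinset_iso H ψ w
    rw [hψ] at this
    exact this
  have hsum : ∑ v : W, H.degree v = Fintype.card W * H.degree w := by
    rw [Finset.sum_congr rfl (fun v _ => hreg v), Finset.sum_const, smul_eq_mul, Finset.card_univ]
  have h2 := H.sum_degrees_eq_twice_card_edges
  have h3 : Even (Fintype.card W * H.degree w) := by
    rw [← hsum]
    rw [even_iff_two_dvd]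
    refine ⟨_, Eq.trans (Finset.sum_congr rfl fun v _ => ?_) h2⟩
    congr 1
    exact Subsingleton.elim _ _
  rcases Nat.even_mul.mp h3 with h | h
  · exact absurd h (Nat.not_even_iff_odd.mpr hodd)
  · exact h

lemma not_acyclic (hconn : H.Connected) [Nontrivial W] : ¬ (hasse ℤ □ H).IsAcyclic := by
  intro hac
  obtain ⟨x, y, hxy⟩ : ∃ x y, H.Adj x y := by
    obtain ⟨x⟩ := hconn.nonempty
    obtain ⟨y, hy⟩ := hconn.preconnected.exists_adj_of_nontrivial x
    exact ⟨x, y, hy⟩
  have h01 : (hasse ℤ).Adj 0 1 := by rw [hasse_int_adj]; left; norm_num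
  have e1 : (hasse ℤ □ H).Adj (0, x) (0, y) := by rw [boxProd_adj]; exact Or.inr ⟨hxy, rfl⟩
  have e2 : (hasse ℤ □ H).Adj (0, y) (1, y) := by rw [boxProd_adj]; exact Or.inl ⟨h01, rfl⟩
  have e3 : (hasse ℤ □ H).Adj (1, y) (1, x) := by rw [boxProd_adj]; exact Or.inr ⟨hxy.symm, rfl⟩
  have e4 : (hasse ℤ □ H).Adj (1, x) (0, x) := by rw [boxProd_adj]; exact Or.inl ⟨h01.symm, rfl⟩
  let c : (hasse ℤ □ H).Walk (0, x) (0, x) :=
    Walk.cons e1 (Walk.cons e2 (Walk.cons e3 (Walk.cons e4 Walk.nil)))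
  apply hac c
  have hxy' : x ≠ y := hxy.ne
  have hyx' : y ≠ x := hxy.ne.symm
  rw [Walk.isCycle_def, Walk.isTrail_def]
  refine ⟨?_, ?_, ?_⟩
  · simp [c, hxy', hyx']
  · simp [c]
  · simp [c, hyx']

/-- Greedy random walk on the product of the infinite path with an odd vertex-transitive graph. -/
theorem product [Fintype W] [DecidableEq W] [Nontrivial W] (hconn : H.Connected)
    (hH : ∀ u v : W, ∃ ψ : H ≃g H, ψ u = v) (hodd : Odd (Fintype.card W)) :
    ∃ _ : (hasse ℤ □ H).LocallyFinite,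
      (hasse ℤ □ H).Connected ∧
      (∀ u v : ℤ × W, ∃ φ : (hasse ℤ □ H) ≃g (hasse ℤ □ H), φ u = v) ∧
      ∀ o : ℤ × W,
        (∃ (_ : MeasurableSpace (ℕ → ℤ × W)) (P : Measure (ℕ → ℤ × W)),
          IsGRW (hasse ℤ □ H) o P (fun t ω => ω t)) ∧
        ∀ (Ω : Type) (_ : MeasurableSpace Ω) (P : Measure Ω) (X : ℕ → Ω → ℤ × W),
          IsGRW (hasse ℤ □ H) o P X →
            P {ω | ∃ t, 1 ≤ t ∧ X t ω = o} ≠ 0 ∧ P {ω | ∃ t, 1 ≤ t ∧ X t ω = o} ≠ 1 ∧
            P {ω | ∀ n, ∃ t, n ≤ t ∧ X t ω = o} = 0 := by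
  classical
  have hlf : H.LocallyFinite := fun v => Fintype.ofFinite _
  have hc : (hasse ℤ □ H).Connected := hasse_int_connected.boxProd hconn
  have ht := prod_trans H hH
  refine ⟨fun v => inferInstance, hc, ht, ?_⟩
  have heven : ∀ v : ℤ × W, Even ((hasse ℤ □ H).degree v) := by
    rintro ⟨a, w⟩
    rw [degree_boxProd, hasse_int_degree]
    exact even_two.add (even_degree H hH hodd w)
  intro o
  have hcount := countable_of_connected (hasse ℤ □ H) hc
  refine ⟨exists_isGRW (hasse ℤ □ H) (neighborFinset_nonempty hc) o, ?_⟩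
  intro Ω mΩ P X h
  refine GRWCut.criterion h hc ht heven (not_acyclic H hconn) {a : ℤ × W | a.1 ≤ 0}
    (Finset.univ.image (fun w : W => (((0 : ℤ), w), ((1 : ℤ), w)))) ?_ ?_
  · rintro ⟨⟨a, x⟩, ⟨b, y⟩⟩
    simp only [Finset.mem_image, Finset.mem_univ, true_and, Prod.mk.injEq, Set.mem_ofPred_eq,
      boxProd_adj, hasse_int_adj]
    constructor
    · rintro ⟨w, ⟨rfl, rfl⟩, rfl, rfl⟩
      refine ⟨Or.inl ⟨by norm_num, rfl⟩, le_rfl, by norm_num⟩
    · rintro ⟨h1, h2, h3⟩
      refine ⟨x, ⟨?_, rfl⟩, ?_, ?_⟩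
      · rcases h1 with ⟨h1, _⟩ | ⟨_, h1⟩ <;> omega
      · rcases h1 with ⟨h1, _⟩ | ⟨_, h1⟩ <;> omega
      · rcases h1 with ⟨_, h1⟩ | ⟨_, h1⟩
        · exact h1
        · omega
  · rw [Finset.card_image_of_injective, Finset.card_univ]
    · exact hodd
    · intro w w' hw
      exact congrArg (fun p : (ℤ × W) × (ℤ × W) => p.1.2) hw

end Pool.Agent.TH978.GRWProd
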