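import Pool.Agent.TH978.LNCMorse

/-!
# Starshapedness from clear visibility of points of local non-convexity
-/

set_option autoImplicit false

open Set Metric Filter Topology Module
open scoped RealInnerProductSpace

namespace Pool.Agent.TH978.LNC

section Defs

variable {V : Type*} [NormedAddCommGroup V] [NormedSpace ℝ V]

/-- The point `y` sees the point `x` in `E`: the closed segment `[y, x]` is contained in `E`. -/
def Sees (E : Set V) (y x : V) : Prop := segment ℝ y x ⊆ E

/-- `E` is starshaped: some point of `E` sees every point of `E`. -/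
def Starshaped (E : Set V) : Prop := ∃ y ∈ E, ∀ x ∈ E, Sees E y x

/-- The boundary point `x` of `E` is locally non-convex (LNC): `B_r(x) ∩ E` fails to be convex for
every `r > 0`. -/
def IsLNC (E : Set V) (x : V) : Prop := x ∈ frontier E ∧ ∀ r > 0, ¬ Convex ℝ (ball x r ∩ E)

/-- `x` is clearly visible from `y`: for some `r > 0`, `y` sees every point of `B_r(x) ∩ E`. -/
def ClearlyVisible (E : Set V) (y x : V) : Prop := ∃ r > 0, ∀ z ∈ ball x r ∩ E, Sees E y z

/-- Property `C_n`: for any (not necessarily distinct) LNC points `x 0, ..., x (n - 1)` of `E`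
there is a single point of `E` from which all of them are clearly visible. -/
def PropC (E : Set V) (n : ℕ) : Prop :=
  ∀ x : Fin n → V, (∀ i, IsLNC E (x i)) → ∃ y ∈ E, ∀ i, ClearlyVisible E y (x i)

/-- The points of `E` from which `x` is clearly visible. -/
def ClearSet (E : Set V) (x : V) : Set V := {y | y ∈ E ∧ ClearlyVisible E y x}

lemma movesTo_of_clearlyVisible {E : Set V} {x y : V} (h : ClearlyVisible E y x) :
    MovesTo E x y := by
  obtain ⟨r, hr, hs⟩ := h
  refine ⟨min r 1, lt_min hr one_pos, fun z hz hzx t ht => ?_⟩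
  have h1 := hs z ⟨lt_of_lt_of_le hzx (min_le_left _ _), hz⟩
  apply h1
  rw [segment_symm]
  exact ⟨1 - t, t, by linarith [ht.2.trans (min_le_right r 1)], ht.1, by ring, by module⟩

lemma convex_movesTo (E : Set V) (x : V) : Convex ℝ {y | MovesTo E x y} := by
  rintro y₁ ⟨δ₁, hδ₁, h₁⟩ y₂ ⟨δ₂, hδ₂, h₂⟩ a b ha hb hab
  set M : ℝ := ‖y₁ - x‖ + 1 with hM
  have hM0 : 0 < M := by positivity
  have hM1 : 0 < 1 + 2 * M := by positivity
  set δ : ℝ := min (1 / 2) (min (δ₁ / 2) (δ₂ / (1 + 2 * M))) with hδ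
  have hδ0 : 0 < δ := lt_min (by norm_num) (lt_min (by positivity) (by positivity))
  have hd1 : δ ≤ 1 / 2 := min_le_left _ _
  have hd2 : δ ≤ δ₁ / 2 := (min_le_right _ _).trans (min_le_left _ _)
  have hd3 : δ * (1 + 2 * M) ≤ δ₂ := by
    have : δ ≤ δ₂ / (1 + 2 * M) := (min_le_right _ _).trans (min_le_right _ _)
    rwa [le_div_iff₀ hM1] at this
  refine ⟨δ, hδ0, fun z hz hzx t ht => ?_⟩
  have hb1 : b ≤ 1 := by linarith
  have ha1 : a ≤ 1 := by linarith
  have htb : t * b ≤ 1 / 2 := by nlinarith [ht.1, ht.2]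
  have htb0 : 0 ≤ t * b := mul_nonneg ht.1 hb
  have h1tb : 0 < 1 - t * b := by linarith
  set s : ℝ := t * a / (1 - t * b) with hs
  have hs0 : 0 ≤ s := div_nonneg (mul_nonneg ht.1 ha) h1tb.le
  have hs1 : s * (1 - t * b) = t * a := by
    rw [hs]
    field_simp
  have hs2 : s ≤ 2 * δ := by
    rw [hs, div_le_iff₀ h1tb]
    have : t * a ≤ δ := by nlinarith [ht.1, ht.2]
    nlinarith
  set z₁ : V := z + s • (y₁ - z) with hz₁
  have hz₁E : z₁ ∈ E := by
    apply h₁ z hz (by linarith) s ⟨hs0, by linarith⟩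
  have hyz : ‖y₁ - z‖ ≤ M := by
    have h3 : y₁ - z = (y₁ - x) - (z - x) := by abel
    rw [h3]
    refine (norm_sub_le _ _).trans ?_
    rw [dist_eq_norm] at hzx
    linarith
  have hz₁x : dist z₁ x < δ₂ := by
    have h3 : z₁ - x = (z - x) + s • (y₁ - z) := by rw [hz₁]; abel
    rw [dist_eq_norm, h3]
    refine lt_of_le_of_lt (norm_add_le _ _) ?_
    rw [norm_smul, Real.norm_of_nonneg hs0]
    rw [dist_eq_norm] at hzx
    have h4 : s * ‖y₁ - z‖ ≤ 2 * δ * M := mul_le_mul hs2 hyz (norm_nonneg _) (by positivity)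
    nlinarith
  have hz₂ : z₁ + (t * b) • (y₂ - z₁) ∈ E := by
    apply h₂ z₁ hz₁E hz₁x
    refine ⟨htb0, ?_⟩
    have : t * b ≤ δ := by nlinarith [ht.1, ht.2]
    nlinarith
  convert hz₂ using 1
  have e1 : z₁ + (t * b) • (y₂ - z₁) =
      z + (s * (1 - t * b)) • (y₁ - z) + (t * b) • (y₂ - z) := by
    rw [hz₁]
    module
  rw [e1, hs1]
  have e2 : a = 1 - b := by linarith
  rw [e2]
  module

lemma movesTo_of_convexHull {E : Set V} {x y : V} (hy : y ∈ convexHull ℝ (ClearSet E x)) :
    MovesTo E x y :=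
  convexHull_min (fun _ hz => movesTo_of_clearlyVisible hz.2) (convex_movesTo E x) hy

/-- Locally convex points are regular or local maxima. -/
lemma dich_of_locallyConvex {E : Set V} {x : V} {r : ℝ} (hr : 0 < r)
    (hconv : Convex ℝ (ball x r ∩ E)) (f : V →L[ℝ] ℝ) :
    (∃ y, f x < f y ∧ MovesTo E x y) ∨ LocMax E f x := by
  by_cases hmax : LocMax E f x
  · exact Or.inr hmax
  left
  have : ∃ u ∈ E, dist u x < r ∧ f x < f u := by
    by_contra hcon
    push Not at hcon
    exact hmax ⟨r, hr, hcon⟩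
  obtain ⟨u, hu, hux, hfu⟩ := this
  refine ⟨u, hfu, min r 1, lt_min hr one_pos, fun z hz hzx t ht => ?_⟩
  have hz' : z ∈ ball x r ∩ E := ⟨lt_of_lt_of_le hzx (min_le_left _ _), hz⟩
  have ht1 : t ≤ 1 := ht.2.trans (min_le_right _ _)
  have := hconv hz' ⟨hux, hu⟩ (a := 1 - t) (b := t) (by linarith) ht.1 (by ring)
  have e : z + t • (u - z) = (1 - t) • z + t • u := by module
  rw [e]
  exact this.2

lemma isLNC_of_forall {E : Set V} {x : V} (hx : x ∈ E)
    (h : ∀ r > 0, ¬ Convex ℝ (ball x r ∩ E)) : IsLNC E x := by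
  refine ⟨⟨subset_closure hx, fun hint => ?_⟩, h⟩
  rw [mem_interior_iff_mem_nhds, Metric.mem_nhds_iff] at hint
  obtain ⟨r, hr, hsub⟩ := hint
  apply h r hr
  rw [inter_eq_left.2 hsub]
  exact convex_ball x r

end Defs

section Inner

variable {V : Type*} [NormedAddCommGroup V] [InnerProductSpace ℝ V]

/-- If `z ∈ E` is not seen from `y₀`, there is a ball disjoint from `E` touching `E` at a point `w`
such that `y₀` is on the side of the ball. -/
lemma exists_touch {E : Set V} (hE : IsCompact E) {y₀ z : V} (hz : z ∈ E)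
    (hns : ¬ segment ℝ y₀ z ⊆ E) :
    ∃ w ∈ E, ∃ ν : V, (∀ v ∈ E, ‖ν‖ ≤ ‖w + ν - v‖) ∧ 0 < ⟪ν, y₀ - w⟫ := by
  obtain ⟨p, hp, hpE⟩ := not_subset.1 hns
  have hne : E.Nonempty := ⟨z, hz⟩
  set c : ℝ → V := fun t => p + t • (z - p) with hc
  have hcc : Continuous c := by fun_prop
  have hgc : Continuous (fun t => infDist (c t) E) := (continuous_infDist_pt E).comp hcc
  set ρ : ℝ := infDist p E / 2 with hρ
  have hp0 : 0 < infDist p E := (hE.isClosed.notMem_iff_infDist_pos hne).1 hpE
  have hρ0 : 0 < ρ := by positivity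
  set T : Set ℝ := Icc 0 1 ∩ {t | infDist (c t) E ≤ ρ} with hT
  have hTc : IsCompact T := isCompact_Icc.inter_right (isClosed_le hgc continuous_const)
  have h1T : (1 : ℝ) ∈ T := by
    refine ⟨⟨zero_le_one, le_rfl⟩, ?_⟩
    have : c 1 = z := by simp [hc]
    show infDist (c 1) E ≤ ρ
    rw [this, infDist_zero_of_mem hz]
    exact hρ0.le
  obtain ⟨t₁, ht₁T, ht₁min⟩ := hTc.exists_isLeast ⟨1, h1T⟩
  have ht₁0 : 0 < t₁ := by
    rcases lt_or_eq_of_le ht₁T.1.1 with h | h
    · exact h
    · exfalso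
      have h2 : infDist (c t₁) E ≤ ρ := ht₁T.2
      rw [← h] at h2
      have : c 0 = p := by simp [hc]
      rw [this] at h2
      linarith
  have hlt : ∀ t ∈ Ico 0 t₁, ρ < infDist (c t) E := by
    intro t ht
    by_contra hcon
    have : t ∈ T := ⟨⟨ht.1, ht.2.le.trans ht₁T.1.2⟩, not_lt.1 hcon⟩
    exact absurd (ht₁min this) (not_le.2 ht.2)
  obtain ⟨w, hw, hwd⟩ := hE.exists_infDist_eq_dist hne (c t₁)
  have hge : ρ ≤ infDist (c t₁) E := by
    have hcl : IsClosed {t | ρ ≤ infDist (c t) E} := isClosed_le continuous_const hgc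
    have h2 : t₁ ∈ closure (Ico 0 t₁) := by
      rw [closure_Ico ht₁0.ne]
      exact ⟨ht₁0.le, le_rfl⟩
    exact hcl.closure_subset_iff.2 (fun t ht => (hlt t ht).le) h2
  have hle : infDist (c t₁) E ≤ ρ := ht₁T.2
  set ν : V := c t₁ - w with hν
  have hνρ : ‖ν‖ = ρ := by
    rw [hν, ← dist_eq_norm, ← hwd]
    exact le_antisymm hle hge
  refine ⟨w, hw, ν, ?_, ?_⟩
  · intro v hv
    have h1 : w + ν - v = c t₁ - v := by rw [hν]; abel
    rw [h1, hνρ, ← dist_eq_norm]
    exact hge.trans (infDist_le_dist_of_mem hv)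
  · -- sign
    have hsgn : 0 ≤ ⟪w - c t₁, z - p⟫ := by
      by_contra hcon
      have hI := not_le.1 hcon
      set I : ℝ := ⟪w - c t₁, z - p⟫ with hIdef
      set N : ℝ := ‖z - p‖ ^ 2 + 1 with hN
      have hN0 : 0 < N := by positivity
      set s : ℝ := min t₁ (-I / N) with hs
      have hs0 : 0 < s := lt_min ht₁0 (div_pos (neg_pos.2 hI) hN0)
      have hs1 : s ≤ t₁ := min_le_left _ _
      have hs2 : s * N ≤ -I := by
        have : s ≤ -I / N := min_le_right _ _
        rwa [le_div_iff₀ hN0] at this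
      have h1 := hlt (t₁ - s) ⟨by linarith, by linarith⟩
      have h2 : infDist (c (t₁ - s)) E ≤ ‖w - c (t₁ - s)‖ := by
        rw [← dist_eq_norm, dist_comm]
        exact infDist_le_dist_of_mem hw
      have h3 : w - c (t₁ - s) = (w - c t₁) + s • (z - p) := by
        simp only [hc]
        module
      have h4 : ‖w - c t₁‖ = ρ := by rw [← hνρ, hν, norm_sub_rev]
      have h5 : ‖w - c (t₁ - s)‖ ^ 2 = ρ ^ 2 + 2 * (s * I) + s ^ 2 * ‖z - p‖ ^ 2 := by
        rw [h3, norm_add_sq_real, h4, inner_smul_right, norm_smul, Real.norm_of_nonneg hs0.le]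
        ring
      have h6 : ρ < ‖w - c (t₁ - s)‖ := lt_of_lt_of_le h1 h2
      have h7 : ρ ^ 2 < ‖w - c (t₁ - s)‖ ^ 2 := by
        apply pow_lt_pow_left₀ h6 hρ0.le (by norm_num)
      rw [h5] at h7
      have h8 : s ^ 2 * ‖z - p‖ ^ 2 ≤ s * (s * N) := by
        rw [hN]
        nlinarith [sq_nonneg s]
      have h9 : s * (s * N) ≤ s * (-I) := mul_le_mul_of_nonneg_left hs2 hs0.le
      nlinarith [mul_pos hs0 (neg_pos.2 hI)]
    -- write p as a convex combination
    obtain ⟨a, b, ha, hb, hab, rfl⟩ := hp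
    have hb1 : b < 1 := by
      rcases lt_or_eq_of_le (show b ≤ 1 by linarith) with h | h
      · exact h
      · exfalso
        apply hpE
        have : a = 0 := by linarith
        rw [this, h]
        simpa using hz
    have ha' : a = 1 - b := by linarith
    subst ha'
    have e1 : z - ((1 - b) • y₀ + b • z) = (1 - b) • (z - y₀) := by module
    rw [e1, inner_smul_right] at hsgn
    have hsgn' : 0 ≤ ⟪w - c t₁, z - y₀⟫ := by
      by_contra hcon
      have := mul_neg_of_pos_of_neg (show 0 < 1 - b by linarith) (not_le.1 hcon)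
      linarith
    have e2 : y₀ - w = ν + (-(b + t₁ * (1 - b))) • (z - y₀) := by
      rw [hν]
      simp only [hc]
      module
    rw [e2, inner_add_right, inner_smul_right, real_inner_self_eq_norm_sq, hνρ]
    have e3 : ⟪ν, z - y₀⟫ = -⟪w - c t₁, z - y₀⟫ := by
      rw [← inner_neg_left]
      congr 1
      rw [hν]
      abel
    rw [e3]
    have hκ : 0 ≤ b + t₁ * (1 - b) := by
      have : 0 ≤ t₁ * (1 - b) := mul_nonneg ht₁0.le (by linarith)
      linarith
    have := mul_nonneg hκ hsgn'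
    nlinarith [pow_pos hρ0 2]

/-- The touching point is not regular. -/
lemma not_regular_of_touch {E : Set V} {w ν : V}
    (hball : ∀ v ∈ E, ‖ν‖ ≤ ‖w + ν - v‖) (hw : w ∈ E) {y : V} (hy : 0 < ⟪ν, y - w⟫) :
    ¬ MovesTo E w y := by
  rintro ⟨δ, hδ, hmov⟩
  set N : ℝ := ‖y - w‖ ^ 2 + 1 with hN
  have hN0 : 0 < N := by positivity
  set I : ℝ := ⟪ν, y - w⟫ with hI
  set t : ℝ := min δ (I / N) with ht
  have ht0 : 0 < t := lt_min hδ (div_pos hy hN0)
  have ht1 : t ≤ δ := min_le_left _ _
  have ht2 : t * N ≤ I := by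
    have : t ≤ I / N := min_le_right _ _
    rwa [le_div_iff₀ hN0] at this
  have h1 := hball _ (hmov w hw (by simpa using hδ) t ⟨ht0.le, ht1⟩)
  have e1 : w + ν - (w + t • (y - w)) = ν - t • (y - w) := by abel
  rw [e1] at h1
  have h2 : ‖ν - t • (y - w)‖ ^ 2 = ‖ν‖ ^ 2 - 2 * (t * I) + t ^ 2 * ‖y - w‖ ^ 2 := by
    rw [norm_sub_sq_real, inner_smul_right, norm_smul, Real.norm_of_nonneg ht0.le]
    ring
  have h3 : ‖ν‖ ^ 2 ≤ ‖ν - t • (y - w)‖ ^ 2 := pow_le_pow_left₀ (norm_nonneg _) h1 2
  rw [h2] at h3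
  have h4 : t ^ 2 * ‖y - w‖ ^ 2 ≤ t * (t * N) := by
    rw [hN]
    nlinarith [sq_nonneg t]
  have h5 : t * (t * N) ≤ t * I := mul_le_mul_of_nonneg_left ht2 ht0.le
  nlinarith [mul_pos ht0 hy]

/-- **The main step.** If `y₀` is in the closed convex hull of `E` and, for every LNC point `x` of
the compact connected set `E`, in the closed convex hull of the set of the points of `E` from which
`x` is clearly visible, then `y₀` sees every point of `E`. -/
theorem sees_of_mem_closure {E : Set V} (hE : IsCompact E) (hconn : IsPreconnected E) {y₀ : V}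
    (hy₀ : y₀ ∈ closure (convexHull ℝ E))
    (hLNC : ∀ x, IsLNC E x → y₀ ∈ closure (convexHull ℝ (ClearSet E x))) :
    ∀ z ∈ E, Sees E y₀ z := by
  intro z hz
  by_contra hns
  obtain ⟨w, hw, ν, hball, hpos⟩ := exists_touch hE hz hns
  set f : V →L[ℝ] ℝ := innerSL ℝ ν with hf
  have hfv : ∀ v, f v = ⟪ν, v⟫ := fun v => rfl
  have hfy : f w < f y₀ := by
    rw [hfv, hfv]
    rw [inner_sub_right] at hpos
    linarith
  -- the dichotomy
  have hdich : ∀ x ∈ E, f x ≤ f w → (∃ y, f x < f y ∧ MovesTo E x y) ∨ LocMax E f x := by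
    intro x hx hxw
    by_cases hLC : ∃ r > 0, Convex ℝ (ball x r ∩ E)
    · obtain ⟨r, hr, hconv⟩ := hLC
      exact dich_of_locallyConvex hr hconv f
    · push Not at hLC
      have hy := hLNC x (isLNC_of_forall hx hLC)
      left
      have hopen : IsOpen {v | f x < f v} := isOpen_lt continuous_const f.continuous
      obtain ⟨y, hy1, hy2⟩ := mem_closure_iff.1 hy _ hopen (lt_of_le_of_lt hxw hfy)
      exact ⟨y, hy1, movesTo_of_convexHull hy2⟩
  have hmax : LocMax E f w := by
    rcases hdich w hw le_rfl with ⟨y, hy1, hy2⟩ | h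
    · exfalso
      refine not_regular_of_touch hball hw ?_ hy2
      rw [hfv, hfv] at hy1
      rw [inner_sub_right]
      linarith
    · exact h
  have hall := morse hE hconn f hw hmax hdich
  have hsub : closure (convexHull ℝ E) ⊆ {v | f v ≤ f w} := by
    refine (isClosed_le f.continuous continuous_const).closure_subset_iff.2 ?_
    exact convexHull_min hall (convex_halfSpace_le f.toLinearMap.isLinear _)
  exact absurd (hsub hy₀) (not_le.2 hfy)

/-- The Krasnosel'skii-type formula for the kernel. -/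
theorem kernel_eq {E : Set V} (hE : IsCompact E) (hconn : IsConnected E)
    (hne : ∃ x, IsLNC E x) :
    {y | y ∈ E ∧ ∀ z ∈ E, Sees E y z} =
      ⋂ x ∈ {x | IsLNC E x}, closure (convexHull ℝ (ClearSet E x)) := by
  ext y
  constructor
  · rintro ⟨hyE, hy⟩
    simp only [mem_iInter]
    intro x _
    exact subset_closure (subset_convexHull ℝ _ ⟨hyE, 1, one_pos, fun z hz => hy z hz.2⟩)
  · intro hy
    simp only [mem_iInter] at hy
    obtain ⟨x, hx⟩ := hne
    have hyc : y ∈ closure (convexHull ℝ E) :=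
      closure_mono (convexHull_mono (fun v hv => hv.1)) (hy x hx)
    have hsee := sees_of_mem_closure hE hconn.isPreconnected hyc (fun x hx => hy x hx)
    obtain ⟨z, hz⟩ := hconn.nonempty
    exact ⟨hsee z hz (left_mem_segment ℝ y z), hsee⟩

/-- **Krasnosel'skii-type theorem for LNC points.** -/
theorem starshaped_of_propC [FiniteDimensional ℝ V] {E : Set V} (hE : IsCompact E)
    (hconn : IsConnected E) (hC : PropC E (finrank ℝ V + 1)) : Starshaped E := by
  by_cases hne : ∃ x, IsLNC E x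
  · -- Helly
    let ι := {x : V // IsLNC E x}
    have hhelly : (⋂ x : ι, closure (convexHull ℝ (ClearSet E x.1))).Nonempty := by
      refine Convex.helly_theorem_compact' (𝕜 := ℝ) (fun x => (convex_convexHull ℝ _).closure)
        (fun x => ?_) (fun I hI => ?_)
      · have hbd : Bornology.IsBounded (convexHull ℝ (ClearSet E x.1)) :=
          (isBounded_convexHull.2 (hE.isBounded.subset (fun v hv => hv.1)))
        exact isCompact_of_isClosed_isBounded isClosed_closure hbd.closure
      · rcases I.eq_empty_or_nonempty with rfl | hIne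
        · simp
        · haveI : Nonempty I := hIne.to_subtype
          have hcard : Fintype.card I ≤ Fintype.card (Fin (finrank ℝ V + 1)) := by
            simpa using hI
          obtain ⟨e⟩ := Function.Embedding.nonempty_of_card_le hcard
          have hsurj := Function.invFun_surjective e.injective
          obtain ⟨y, hyE, hy⟩ := hC (fun k => (Function.invFun e k).1.1)
            (fun k => (Function.invFun e k).1.2)
          refine ⟨y, ?_⟩
          simp only [mem_iInter]
          intro x hx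
          obtain ⟨k, hk⟩ := hsurj ⟨x, hx⟩
          have := hy k
          rw [hk] at this
          exact subset_closure (subset_convexHull ℝ _ ⟨hyE, this⟩)
    obtain ⟨y, hy⟩ := hhelly
    have hy' : y ∈ {y | y ∈ E ∧ ∀ z ∈ E, Sees E y z} := by
      rw [kernel_eq hE hconn hne]
      simp only [mem_iInter] at hy ⊢
      exact fun x hx => hy ⟨x, hx⟩
    exact ⟨y, hy'.1, hy'.2⟩
  · -- no LNC points: the set is convex
    push Not at hne
    obtain ⟨y, hy⟩ := hconn.nonempty
    exact ⟨y, hy, sees_of_mem_closure hE hconn.isPreconnected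
      (subset_closure (subset_convexHull ℝ _ hy)) (fun x hx => absurd hx (hne x))⟩

/-- The converse. -/
theorem propC_of_starshaped {E : Set V} (h : Starshaped E) (n : ℕ) : PropC E n := by
  obtain ⟨y, hy, hs⟩ := h
  exact fun x _ => ⟨y, hy, fun i => ⟨1, one_pos, fun z hz => hs z hz.2⟩⟩

end Inner

end Pool.Agent.TH978.LNC
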