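import Mathlib

/-!
# A Morse-type lemma for linear functionals on compact connected sets

`MovesTo E x y`: all the points of `E` near `x` can be moved a little towards `y` inside `E`.
If at every point `x` of the compact connected set `E` with `f x ≤ f w` one can either move towards
some `y` with `f x < f y`, or `x` is a local maximum of `f` on `E`, then the local maximum `w` of
`f` on `E` is a global maximum.
-/

set_option autoImplicit false

open Set Metric Filter Topology

namespace Pool.Agent.TH978.LNC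

variable {V : Type*} [NormedAddCommGroup V] [NormedSpace ℝ V]

/-- All the points of `E` near `x` can be moved a little towards `y` inside `E`. -/
def MovesTo (E : Set V) (x y : V) : Prop :=
  ∃ δ > 0, ∀ z ∈ E, dist z x < δ → ∀ t ∈ Icc (0 : ℝ) δ, z + t • (y - z) ∈ E

lemma f_move (f : V →L[ℝ] ℝ) (z y : V) (t : ℝ) :
    f (z + t • (y - z)) = f z + t * (f y - f z) := by
  simp

omit [NormedSpace ℝ V] in
lemma sub_of_clopen {F C S : Set V} (hC : IsClosed C) (hQ : IsClosed (F \ C))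
    (hS : IsPreconnected S) (hSF : S ⊆ F) (hne : (S ∩ C).Nonempty) : S ⊆ C := by
  by_contra h
  obtain ⟨s, hsS, hsC⟩ := not_subset.1 h
  have hcov : S ⊆ C ∪ (F \ C) := fun x hx => by
    by_cases hxC : x ∈ C
    · exact Or.inl hxC
    · exact Or.inr ⟨hSF hx, hxC⟩
  obtain ⟨x, _, hxC, _, hxn⟩ :=
    isPreconnected_closed_iff.1 hS C (F \ C) hC hQ hcov hne ⟨s, hsS, hSF hsS, hsC⟩
  exact hxn hxC

lemma isPreconnected_moves (z y : V) (s t : ℝ) :
    IsPreconnected ((fun r : ℝ => z + r • (y - z)) '' Icc s t) := by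
  apply isPreconnected_Icc.image
  fun_prop

/-- The superlevel sets. -/
def Sup (E : Set V) (f : V →L[ℝ] ℝ) (a : ℝ) : Set V := E ∩ {x | a ≤ f x}

lemma isClosed_Sup {E : Set V} (hE : IsCompact E) (f : V →L[ℝ] ℝ) (a : ℝ) :
    IsClosed (Sup E f a) :=
  hE.isClosed.inter (isClosed_le continuous_const f.continuous)

/-- A cap at level `a`: a relatively clopen part `C` of the superlevel set at level `a`, containing
`w`, on which `f ≤ c`. -/
structure IsCap (E : Set V) (f : V →L[ℝ] ℝ) (w : V) (c m : ℝ) (a : ℝ) (C : Set V) : Prop where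
  m_le : m ≤ a
  le_c : a ≤ c
  sub : C ⊆ Sup E f a
  closed : IsClosed C
  closed_diff : IsClosed (Sup E f a \ C)
  mem : w ∈ C
  le : ∀ x ∈ C, f x ≤ c

/-- Downward extension of caps by a bit. -/
lemma IsCap.extend {E : Set V} (hE : IsCompact E) {f : V →L[ℝ] ℝ} {w : V} {c m a : ℝ}
    {C : Set V} (h : IsCap E f w c m a C) (hma : m < a) :
    ∃ a' C', a' < a ∧ IsCap E f w c m a' C' ∧ C' ∩ {x | a ≤ f x} = C := by
  have hCc : IsCompact C := hE.of_isClosed_subset h.closed (fun x hx => (h.sub hx).1)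
  have hdisj : Disjoint C (Sup E f a \ C) := disjoint_sdiff_right
  obtain ⟨O₁, O₂, hO₁, hO₂, hC₁, hC₂, hO⟩ :=
    SeparatedNhds.of_isCompact_isClosed hCc h.closed_diff hdisj
  -- the rest
  have hR : IsCompact (E \ (O₁ ∪ O₂)) := hE.diff (hO₁.union hO₂)
  have hlt : ∀ x ∈ E \ (O₁ ∪ O₂), f x < a := by
    intro x hx
    by_contra hcon
    have hxa : x ∈ Sup E f a := ⟨hx.1, not_lt.1 hcon⟩
    apply hx.2
    by_cases hxC : x ∈ C
    · exact Or.inl (hC₁ hxC)
    · exact Or.inr (hC₂ ⟨hxa, hxC⟩)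
  obtain ⟨b, hba, hb⟩ : ∃ b < a, ∀ x ∈ E \ (O₁ ∪ O₂), f x ≤ b := by
    rcases (E \ (O₁ ∪ O₂)).eq_empty_or_nonempty with he | hne
    · exact ⟨a - 1, by linarith, by simp [he]⟩
    · obtain ⟨x, hx, hxm⟩ := hR.exists_isMaxOn hne f.continuous.continuousOn
      exact ⟨f x, hlt x hx, fun z hz => hxm hz⟩
  obtain ⟨a', ha'1, ha'2⟩ := exists_between (max_lt hba hma)
  have hcov : Sup E f a' ⊆ O₁ ∪ O₂ := by
    intro x hx
    by_contra hcon
    have h1 := hb x ⟨hx.1, hcon⟩
    have h2 : a' ≤ f x := hx.2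
    have h3 := lt_of_le_of_lt (le_max_left b m) ha'1
    linarith
  have e1 : Sup E f a' ∩ O₁ = Sup E f a' \ O₂ := by
    ext x
    constructor
    · rintro ⟨h1, h2⟩
      exact ⟨h1, fun h3 => hO.le_bot ⟨h2, h3⟩⟩
    · rintro ⟨h1, h2⟩
      exact ⟨h1, (hcov h1).resolve_right h2⟩
  have e2 : Sup E f a' \ (Sup E f a' ∩ O₁) = Sup E f a' \ O₁ := by
    ext x
    simp
  have e3 : Sup E f a' ∩ O₁ ∩ {x | a ≤ f x} = C := by
    ext x
    constructor
    · rintro ⟨⟨h1, h2⟩, h3⟩
      by_contra hxC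
      exact hO.le_bot ⟨h2, hC₂ ⟨⟨h1.1, h3⟩, hxC⟩⟩
    · intro hx
      have h1 := h.sub hx
      exact ⟨⟨⟨h1.1, le_trans ha'2.le h1.2⟩, hC₁ hx⟩, h1.2⟩
  refine ⟨a', Sup E f a' ∩ O₁, ha'2, ⟨?_, ?_, inter_subset_left, ?_, ?_, ?_, ?_⟩, e3⟩
  · exact (lt_of_le_of_lt (le_max_right b m) ha'1).le
  · exact ha'2.le.trans h.le_c
  · rw [e1]
    exact (isClosed_Sup hE f a').sdiff hO₂
  · rw [e2]
    exact (isClosed_Sup hE f a').sdiff hO₁
  · rw [← e3] at h
    exact h.mem.1
  · intro x hx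
    by_cases hxa : a ≤ f x
    · exact h.le x (by rw [← e3]; exact ⟨hx, hxa⟩)
    · exact (not_le.1 hxa).le.trans h.le_c

end Pool.Agent.TH978.LNC

namespace Pool.Agent.TH978.LNC

variable {V : Type*} [NormedAddCommGroup V] [NormedSpace ℝ V]

/-- `x` is a local maximum of `f` on `E`. -/
def LocMax (E : Set V) (f : V →L[ℝ] ℝ) (x : V) : Prop :=
  ∃ r > 0, ∀ z ∈ E, dist z x < r → f z ≤ f x

/-- `q` extends `p`. -/
def Ext (f : V →L[ℝ] ℝ) (p q : ℝ × Set V) : Prop :=
  q.1 ≤ p.1 ∧ q.2 ∩ {x | p.1 ≤ f x} = p.2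

lemma tendsto_move (x y : V) (t : ℝ) : Tendsto (fun z : V => z + t • (y - z)) (𝓝 x)
    (𝓝 (x + t • (y - x))) := by
  have : Continuous (fun z : V => z + t • (y - z)) := by fun_prop
  exact this.tendsto x

/-- The limit step. -/
lemma cap_limit {E : Set V} (hE : IsCompact E) {f : V →L[ℝ] ℝ} {w : V} {c m : ℝ}
    (hdich : ∀ x ∈ E, f x ≤ c → (∃ y, f x < f y ∧ MovesTo E x y) ∨ LocMax E f x)
    {K : Set (ℝ × Set V)} (hne : K.Nonempty) (hcap : ∀ p ∈ K, IsCap E f w c m p.1 p.2)
    (hchain : ∀ p ∈ K, ∀ q ∈ K, Ext f p q ∨ Ext f q p) {b : ℝ} (hb : ∀ p ∈ K, b < p.1)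
    (hb' : ∀ a > b, ∃ p ∈ K, p.1 < a) :
    ∃ C, IsCap E f w c m b C ∧ ∀ p ∈ K, Ext f p (b, C) := by
  set U : Set V := {x | ∃ p ∈ K, x ∈ p.2} with hU
  have hUE : U ⊆ E := fun x ⟨p, hp, hx⟩ => ((hcap p hp).sub hx).1
  have hUb : ∀ x ∈ U, b < f x := fun x ⟨p, hp, hx⟩ =>
    lt_of_lt_of_le (hb p hp) ((hcap p hp).sub hx).2
  have hUc : ∀ x ∈ U, f x ≤ c := fun x ⟨p, hp, hx⟩ => (hcap p hp).le x hx
  have hcompat : ∀ p ∈ K, ∀ x ∈ U, p.1 ≤ f x → x ∈ p.2 := by
    rintro p hp x ⟨q, hq, hx⟩ hpx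
    rcases hchain p hp q hq with h | h
    · rw [← h.2]
      exact ⟨hx, hpx⟩
    · rw [← h.2] at hx
      exact hx.1
  have hclE : closure U ⊆ E := hE.isClosed.closure_subset_iff.2 hUE
  have hclc : ∀ x ∈ closure U, f x ≤ c := by
    have : closure U ⊆ {x | f x ≤ c} :=
      (isClosed_le f.continuous continuous_const).closure_subset_iff.2 hUc
    exact this
  have hclb : ∀ x ∈ closure U, b ≤ f x := by
    have : closure U ⊆ {x | b ≤ f x} :=
      (isClosed_le continuous_const f.continuous).closure_subset_iff.2 (fun x hx => (hUb x hx).le)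
    exact this
  -- compatibility of the closure
  have hcompat' : ∀ p ∈ K, ∀ x ∈ closure U, p.1 ≤ f x → x ∈ p.2 := by
    intro p hp x hx hpx
    obtain ⟨q, hq, hqp⟩ := hb' p.1 (hb p hp)
    have hqx : q.1 < f x := lt_of_lt_of_le hqp hpx
    have hxq : x ∈ q.2 := by
      have hopen : IsOpen {z | q.1 < f z} := isOpen_lt continuous_const f.continuous
      have h1 : x ∈ closure (U ∩ {z | q.1 < f z}) := by
        rw [inter_comm]
        exact hopen.inter_closure ⟨hqx, hx⟩
      have h2 : U ∩ {z | q.1 < f z} ⊆ q.2 := fun z hz => hcompat q hq z hz.1 (le_of_lt hz.2)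
      exact (hcap q hq).closed.closure_subset_iff.2 h2 h1
    exact hcompat p hp x ⟨q, hq, hxq⟩ hpx
  have hsubK : ∀ p ∈ K, p.2 ⊆ closure U := fun p hp x hx => subset_closure ⟨p, hp, hx⟩
  refine ⟨closure U, ⟨?_, ?_, ?_, isClosed_closure, ?_, ?_, hclc⟩, ?_⟩
  · -- m ≤ b
    by_contra hcon
    obtain ⟨p, hp, hpm⟩ := hb' m (not_le.1 hcon)
    exact absurd (hcap p hp).m_le (not_le.2 hpm)
  · obtain ⟨p, hp⟩ := hne
    exact (hb p hp).le.trans (hcap p hp).le_c
  · exact fun x hx => ⟨hclE hx, hclb x hx⟩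
  · -- the complement is closed
    apply isClosed_of_closure_subset
    intro x hx
    have hxF : x ∈ Sup E f b :=
      (isClosed_Sup hE f b).closure_subset_iff.2 sdiff_subset hx
    refine ⟨hxF, fun hxK => ?_⟩
    rcases (lt_or_eq_of_le hxF.2 : b < f x ∨ b = f x) with hlt | heq
    · -- f x > b
      obtain ⟨p, hp, hpx⟩ := hb' (f x) hlt
      have hxp : x ∈ p.2 := hcompat' p hp x hxK hpx.le
      have hopen : IsOpen {z | p.1 < f z} := isOpen_lt continuous_const f.continuous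
      have h1 : x ∈ closure ((Sup E f b \ closure U) ∩ {z | p.1 < f z}) := by
        rw [inter_comm]
        exact hopen.inter_closure ⟨hpx, hx⟩
      have h2 : (Sup E f b \ closure U) ∩ {z | p.1 < f z} ⊆ Sup E f p.1 \ p.2 := by
        rintro z ⟨⟨hz1, hz2⟩, hz3⟩
        exact ⟨⟨hz1.1, (le_of_lt hz3 : p.1 ≤ f z)⟩, fun hz4 => hz2 (hsubK p hp hz4)⟩
      exact ((hcap p hp).closed_diff.closure_subset_iff.2 h2 h1).2 hxp
    · -- f x = b
      have hxc : f x ≤ c := hclc x hxK
      rcases hdich x hxF.1 hxc with ⟨y, hy, δ, hδ, hmov⟩ | ⟨r, hr, hmax⟩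
      · -- regular point
        -- t
        set t : ℝ := min δ 1 with ht
        have ht0 : 0 < t := lt_min hδ one_pos
        have htδ : t ≤ δ := min_le_left _ _
        have ht1 : t ≤ 1 := min_le_right _ _
        set q : V := x + t • (y - x) with hq
        have hfq : b < f q := by
          rw [hq, f_move, ← heq]
          nlinarith [mul_pos ht0 (sub_pos.2 hy)]
        -- points of U near x are moved in U
        have hmoveU : ∀ u ∈ U, dist u x < δ → f u < f y → u + t • (y - u) ∈ U := by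
          rintro u ⟨p, hp, hu⟩ hux huy
          refine ⟨p, hp, ?_⟩
          have hsub := sub_of_clopen (F := Sup E f p.1) (hcap p hp).closed
            (hcap p hp).closed_diff (isPreconnected_moves u y 0 t) ?_ ⟨u, ?_, hu⟩
          · exact hsub ⟨t, ⟨ht0.le, le_rfl⟩, rfl⟩
          · rintro _ ⟨s, hs, rfl⟩
            refine ⟨hmov u ((hcap p hp).sub hu).1 hux s ⟨hs.1, hs.2.trans htδ⟩, ?_⟩
            show p.1 ≤ f (u + s • (y - u))
            rw [f_move]
            have h1 : p.1 ≤ f u := ((hcap p hp).sub hu).2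
            nlinarith [mul_nonneg hs.1 (sub_pos.2 huy).le]
          · exact ⟨0, ⟨le_rfl, ht0.le⟩, by simp⟩
        have hnear : ∀ᶠ z in 𝓝 x, dist z x < δ ∧ f z < f y := by
          have h1 : ∀ᶠ z in 𝓝 x, dist z x < δ := ball_mem_nhds x hδ
          have h2 : ∀ᶠ z in 𝓝 x, f z < f y :=
            (isOpen_lt f.continuous continuous_const).mem_nhds hy
          exact h1.and h2
        have hqK : q ∈ closure U := by
          have htend := tendsto_move x y t
          have hx' : x ∈ closure U := hxK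
          rw [mem_closure_iff_frequently] at hx'
          have h3 : ∃ᶠ z in 𝓝 x, z + t • (y - z) ∈ U :=
            (hx'.and_eventually hnear).mono (fun z hz => hmoveU z hz.1 hz.2.1 hz.2.2)
          rw [mem_closure_iff_frequently]
          exact htend.frequently h3
        obtain ⟨p, hp, hpq⟩ := hb' (f q) hfq
        have hqp : q ∈ p.2 := hcompat' p hp q hqK hpq.le
        -- near q, the points of the superlevel set are in p.2
        have hq_near : ∀ᶠ v in 𝓝 q, v ∈ Sup E f p.1 → v ∈ p.2 := by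
          have hmem : q ∈ (Sup E f p.1 \ p.2)ᶜ := fun hcon => hcon.2 hqp
          filter_upwards [(hcap p hp).closed_diff.isOpen_compl.mem_nhds hmem] with v hv hv2
          by_contra hv3
          exact hv ⟨hv2, hv3⟩
        have hq_near2 : ∀ᶠ v in 𝓝 q, p.1 < f v :=
          (isOpen_lt continuous_const f.continuous).mem_nhds hpq
        have htend := tendsto_move x y t
        have hev : ∀ᶠ z in 𝓝 x, ((z + t • (y - z) ∈ Sup E f p.1 → z + t • (y - z) ∈ p.2) ∧
            p.1 < f (z + t • (y - z))) ∧ (dist z x < δ ∧ f z < f y) :=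
          (htend.eventually (hq_near.and hq_near2)).and hnear
        rw [mem_closure_iff_frequently] at hx
        obtain ⟨z, hz, ⟨hz1, hz2⟩, hz3, hz4⟩ := (hx.and_eventually hev).exists
        have hzE : z ∈ E := hz.1.1
        have hzb : b ≤ f z := hz.1.2
        have hz' : z + t • (y - z) ∈ p.2 := by
          apply hz1
          exact ⟨hmov z hzE hz3 t ⟨ht0.le, htδ⟩, hz2.le⟩
        have hz'U : z + t • (y - z) ∈ U := ⟨p, hp, hz'⟩
        -- all intermediate points are in U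
        have hint : ∀ s ∈ Ioc (0 : ℝ) t, z + s • (y - z) ∈ U := by
          intro s hs
          have hfs : b < f (z + s • (y - z)) := by
            rw [f_move]
            nlinarith [mul_pos hs.1 (sub_pos.2 hz4)]
          obtain ⟨p', hp', hpp'⟩ := hb' _ hfs
          have hmono : ∀ r ∈ Icc s t, p'.1 ≤ f (z + r • (y - z)) := by
            intro r hr
            refine hpp'.le.trans ?_
            rw [f_move, f_move]
            have := mul_le_mul_of_nonneg_right hr.1 (sub_pos.2 hz4).le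
            linarith
          have hzp' : z + t • (y - z) ∈ p'.2 := hcompat p' hp' _ hz'U (hmono t ⟨hs.2, le_rfl⟩)
          have hsub := sub_of_clopen (F := Sup E f p'.1) (hcap p' hp').closed
            (hcap p' hp').closed_diff (isPreconnected_moves z y s t) ?_
            ⟨z + t • (y - z), ⟨t, ⟨hs.2, le_rfl⟩, rfl⟩, hzp'⟩
          · exact ⟨p', hp', hsub ⟨s, ⟨le_rfl, hs.2⟩, rfl⟩⟩
          · rintro _ ⟨r, hr, rfl⟩
            exact ⟨hmov z hzE hz3 r ⟨hs.1.le.trans hr.1, hr.2.trans htδ⟩, hmono r hr⟩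
        -- hence z ∈ closure U
        apply hz.2
        have hcont : ContinuousWithinAt (fun s : ℝ => z + s • (y - z)) (Ioc 0 t) 0 := by
          apply Continuous.continuousWithinAt
          fun_prop
        have h0 : (0 : ℝ) ∈ closure (Ioc (0 : ℝ) t) := by
          rw [closure_Ioc ht0.ne]
          exact ⟨le_rfl, ht0.le⟩
        have := hcont.mem_closure h0 (fun s hs => hint s hs)
        simpa using this
      · -- local maximum: impossible
        rw [Metric.mem_closure_iff] at hxK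
        obtain ⟨u, hu, hux⟩ := hxK r hr
        have h1 := hmax u (hUE hu) (by rwa [dist_comm])
        have h2 := hUb u hu
        linarith
  · obtain ⟨p, hp⟩ := hne
    exact hsubK p hp (hcap p hp).mem
  · intro p hp
    refine ⟨(hb p hp).le, ?_⟩
    ext x
    constructor
    · rintro ⟨h1, h2⟩
      exact hcompat' p hp x h1 h2
    · intro hx
      exact ⟨hsubK p hp hx, ((hcap p hp).sub hx).2⟩

/-- The initial cap. -/
lemma cap_start {E : Set V} (hE : IsCompact E) {f : V →L[ℝ] ℝ} {w : V} {m : ℝ} (hw : w ∈ E)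
    (hwmax : LocMax E f w) (hm : m ≤ f w)
    (hdich : ∀ x ∈ E, f x ≤ f w → (∃ y, f x < f y ∧ MovesTo E x y) ∨ LocMax E f x) :
    ∃ C, IsCap E f w (f w) m (f w) C := by
  set G : Set V := {x | x ∈ E ∧ f x = f w ∧ LocMax E f x} with hG
  have hGsub : G ⊆ Sup E f (f w) := fun x hx => ⟨hx.1, hx.2.1.ge⟩
  refine ⟨G, ⟨hm, le_rfl, hGsub, ?_, ?_, ⟨hw, rfl, hwmax⟩, fun x hx => hx.2.1.le⟩⟩
  · apply isClosed_of_closure_subset
    intro x hx
    have hxE : x ∈ E := hE.isClosed.closure_subset_iff.2 (fun z hz => hz.1) hx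
    have hxf : f x = f w := by
      have : closure G ⊆ {z | f z = f w} :=
        (isClosed_eq f.continuous continuous_const).closure_subset_iff.2 (fun z hz => hz.2.1)
      exact this hx
    refine ⟨hxE, hxf, ?_⟩
    rcases hdich x hxE hxf.le with ⟨y, hy, δ, hδ, hmov⟩ | h
    · exfalso
      rw [Metric.mem_closure_iff] at hx
      obtain ⟨g, hg, hgx⟩ := hx δ hδ
      obtain ⟨r, hr, hmax⟩ := hg.2.2
      -- small move
      have htend : Tendsto (fun t : ℝ => g + t • (y - g)) (𝓝[>] 0) (𝓝 g) := by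
        have : Continuous (fun t : ℝ => g + t • (y - g)) := by fun_prop
        have h2 := this.tendsto 0
        simp only [zero_smul, add_zero] at h2
        exact h2.mono_left nhdsWithin_le_nhds
      have h1 : ∀ᶠ t in 𝓝[>] (0 : ℝ), dist (g + t • (y - g)) g < r :=
        htend.eventually (ball_mem_nhds g hr)
      have h2 : ∀ᶠ t in 𝓝[>] (0 : ℝ), t ∈ Ioc (0 : ℝ) δ := Ioc_mem_nhdsGT hδ
      obtain ⟨t, ht1, ht2⟩ := (h1.and h2).exists
      have h3 := hmax _ (hmov g hg.1 (by rwa [dist_comm]) t ⟨ht2.1.le, ht2.2⟩) ht1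
      rw [f_move] at h3
      have h4 : f g < f y := by rw [hg.2.1, ← hxf]; exact hy
      nlinarith [mul_pos ht2.1 (sub_pos.2 h4)]
    · exact h
  · apply isClosed_of_closure_subset
    intro x hx
    have hxF : x ∈ Sup E f (f w) :=
      (isClosed_Sup hE f _).closure_subset_iff.2 sdiff_subset hx
    refine ⟨hxF, fun hxG => ?_⟩
    obtain ⟨r, hr, hmax⟩ := hxG.2.2
    rw [Metric.mem_closure_iff] at hx
    obtain ⟨z, hz, hzx⟩ := hx r hr
    rw [dist_comm] at hzx
    apply hz.2
    have h1 : f z ≤ f x := hmax z hz.1.1 hzx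
    have h2 : f w ≤ f z := hz.1.2
    have h3 : f z = f w := le_antisymm (h1.trans hxG.2.1.le) h2
    refine ⟨hz.1.1, h3, r - dist z x, by linarith, fun v hv hvz => ?_⟩
    rw [h3, ← hxG.2.1]
    apply hmax v hv
    have := dist_triangle v z x
    linarith

/-- **The Morse-type lemma.** -/
theorem morse {E : Set V} (hE : IsCompact E) (hconn : IsPreconnected E) (f : V →L[ℝ] ℝ) {w : V}
    (hw : w ∈ E) (hwmax : LocMax E f w)
    (hdich : ∀ x ∈ E, f x ≤ f w → (∃ y, f x < f y ∧ MovesTo E x y) ∨ LocMax E f x) :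
    ∀ z ∈ E, f z ≤ f w := by
  obtain ⟨x₀, hx₀, hmin⟩ := hE.exists_isMinOn ⟨w, hw⟩ f.continuous.continuousOn
  set m : ℝ := f x₀ with hm
  have hmw : m ≤ f w := hmin hw
  let α := {p : ℝ × Set V // IsCap E f w (f w) m p.1 p.2}
  let r : α → α → Prop := fun p q => Ext f p.1 q.1
  have htrans : ∀ {a b c : α}, r a b → r b c → r a c := by
    rintro a b c ⟨h1, h2⟩ ⟨h3, h4⟩
    refine ⟨h3.trans h1, ?_⟩
    rw [← h2, ← h4, inter_assoc]
    congr 1
    ext x
    simp only [mem_inter_iff, mem_ofPred_eq]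
    constructor
    · intro h
      exact ⟨h1.trans h, h⟩
    · exact fun h => h.2
  have hrefl : ∀ a : α, r a a := fun a => by
    refine ⟨le_rfl, ?_⟩
    rw [inter_eq_left]
    exact fun x hx => (a.2.sub hx).2
  obtain ⟨C₀, hC₀⟩ := cap_start hE hw hwmax hmw hdich
  have hbdd : ∀ c : Set α, IsChain r c → ∃ ub, ∀ a ∈ c, r a ub := by
    intro c hc
    rcases c.eq_empty_or_nonempty with rfl | hcne
    · exact ⟨⟨(f w, C₀), hC₀⟩, by simp⟩
    set K : Set (ℝ × Set V) := Subtype.val '' c with hK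
    have hKne : K.Nonempty := hcne.image _
    have hKcap : ∀ p ∈ K, IsCap E f w (f w) m p.1 p.2 := by
      rintro _ ⟨p, _, rfl⟩
      exact p.2
    have hKchain : ∀ p ∈ K, ∀ q ∈ K, Ext f p q ∨ Ext f q p := by
      rintro _ ⟨p, hp, rfl⟩ _ ⟨q, hq, rfl⟩
      by_cases hpq : p = q
      · subst hpq
        exact Or.inl (hrefl p)
      · exact hc hp hq hpq
    set b : ℝ := sInf (Prod.fst '' K) with hb
    have hbb : BddBelow (Prod.fst '' K) := ⟨m, by
      rintro _ ⟨p, hp, rfl⟩
      exact (hKcap p hp).m_le⟩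
    have hble : ∀ p ∈ K, b ≤ p.1 := fun p hp => csInf_le hbb ⟨p, hp, rfl⟩
    by_cases hatt : ∃ p ∈ K, p.1 = b
    · obtain ⟨p, ⟨p', hp', rfl⟩, hpb⟩ := hatt
      refine ⟨p', fun a ha => ?_⟩
      rcases hKchain a.1 ⟨a, ha, rfl⟩ p'.1 ⟨p', hp', rfl⟩ with h | h
      · exact h
      · have h1 : a.1.1 = p'.1.1 := le_antisymm h.1 (by rw [hpb]; exact hble a.1 ⟨a, ha, rfl⟩)
        refine ⟨h1.ge, ?_⟩
        have h2 := h.2
        have h3 : a.1.2 ∩ {x | p'.1.1 ≤ f x} = a.1.2 := by
          rw [inter_eq_left]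
          intro x hx
          have := (a.2.sub hx).2
          rw [← h1]
          exact this
        rw [h3] at h2
        rw [← h2, inter_eq_left]
        exact fun x hx => (a.2.sub hx).2
    · push Not at hatt
      have hblt : ∀ p ∈ K, b < p.1 := fun p hp =>
        lt_of_le_of_ne (hble p hp) (fun h => hatt p hp h.symm)
      have hb' : ∀ a > b, ∃ p ∈ K, p.1 < a := by
        intro a ha
        obtain ⟨_, ⟨p, hp, rfl⟩, hpa⟩ := exists_lt_of_csInf_lt (hKne.image _) ha
        exact ⟨p, hp, hpa⟩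
      obtain ⟨C, hC, hCext⟩ := cap_limit hE hdich hKne hKcap hKchain hblt hb'
      exact ⟨⟨(b, C), hC⟩, fun a ha => hCext a.1 ⟨a, ha, rfl⟩⟩
  obtain ⟨⟨⟨a, C⟩, hC⟩, hmax⟩ := exists_maximal_of_chains_bounded hbdd htrans
  simp only at hC
  rcases lt_or_eq_of_le hC.m_le with hlt | heq
  · obtain ⟨a', C', haa', hC', hint⟩ := hC.extend hE hlt
    have h1 : r ⟨(a, C), hC⟩ ⟨(a', C'), hC'⟩ := ⟨haa'.le, hint⟩
    have h2 := (hmax _ h1).1
    exact absurd haa' (not_lt.2 h2)
  · have hSup : Sup E f a = E := by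
      rw [Sup, inter_eq_left]
      intro x hx
      show a ≤ f x
      rw [← heq]
      exact hmin hx
    have hsub : E ⊆ C := sub_of_clopen (F := E) hC.closed (by rw [← hSup]; exact hC.closed_diff)
      hconn le_rfl ⟨w, hw, hC.mem⟩
    exact fun z hz => hC.le z (hsub hz)

end Pool.Agent.TH978.LNC
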